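import Mathlib
import Pool.Agent.W543.GE.Stm

/-! GE-CHAIN: nilpotent families of matrices over a division ring. -/

set_option autoImplicit false

universe u

namespace Pool.Agent.W551.GE

open Matrix Pool.Agent.W543.GE

section

variable {D : Type u} [DivisionRing D] {S : Type} [Fintype S] [DecidableEq S] {g : ℕ}
  (B : Fin g → Matrix S S D)

/-- One step. -/
noncomputable def stepU (U : Submodule D (S → D)) : Submodule D (S → D) :=
  ⨆ j, U.map (Matrix.vecMulLinear (B j))

theorem stepU_mono {U U' : Submodule D (S → D)} (h : U ≤ U') : stepU B U ≤ stepU B U' :=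
  iSup_mono fun _ => Submodule.map_mono h

/-- The chain. -/
noncomputable def chU : ℕ → Submodule D (S → D)
  | 0 => ⊤
  | i + 1 => stepU B (chU i)

theorem chU_succ_le (i : ℕ) : chU B (i + 1) ≤ chU B i := by
  induction i with
  | zero => exact le_top
  | succ i ih => exact stepU_mono B ih

theorem chU_anti : Antitone (chU B) := antitone_nat_of_succ_le (chU_succ_le B)

theorem chU_const {i : ℕ} (h : chU B (i + 1) = chU B i) (m : ℕ) : chU B (i + m) = chU B i := by
  induction m with
  | zero => rfl
  | succ m ih =>
    have e : chU B (i + (m + 1)) = stepU B (chU B (i + m)) := rfl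
    rw [e, ih]
    exact h

theorem mem_step {U : Submodule D (S → D)} {r : S → D} (hr : r ∈ U) (j : Fin g) :
    r ᵥ* B j ∈ stepU B U := by
  refine Submodule.mem_iSup_of_mem j ?_
  exact ⟨r, hr, rfl⟩

theorem word_mem (w : List (Fin g)) : ∀ (i : ℕ) (r : S → D), r ∈ chU B i →
    r ᵥ* (w.map B).prod ∈ chU B (i + w.length) := by
  induction w with
  | nil =>
    intro i r hr
    simpa using hr
  | cons j w ih =>
    intro i r hr
    rw [List.map_cons, List.prod_cons, ← Matrix.vecMul_vecMul, List.length_cons]
    have h1 := ih (i + 1) (r ᵥ* B j) (mem_step B hr j)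
    have e : i + (w.length + 1) = i + 1 + w.length := by omega
    rw [e]
    exact h1

theorem word_zero {k : ℕ} (hk : ∀ w : List (Fin g), k ≤ w.length → (w.map B).prod = 0) (i : ℕ) :
    ∀ u ∈ chU B i, ∀ w : List (Fin g), k ≤ i + w.length → u ᵥ* (w.map B).prod = 0 := by
  induction i with
  | zero =>
    intro u _ w hw
    rw [hk w (by omega), Matrix.vecMul_zero]
  | succ i ih =>
    intro u hu
    change u ∈ stepU B (chU B i) at hu
    unfold stepU at hu
    induction hu using Submodule.iSup_induction' with
    | mem j x hx =>
      obtain ⟨u', hu', rfl⟩ := hx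
      intro w hw
      have h1 := ih u' hu' (j :: w) (by rw [List.length_cons]; omega)
      rw [List.map_cons, List.prod_cons, ← Matrix.vecMul_vecMul] at h1
      exact h1
    | zero =>
      intro w _
      exact Matrix.zero_vecMul _
    | add x y _ _ hx hy =>
      intro w hw
      rw [Matrix.add_vecMul, hx w hw, hy w hw, add_zero]

theorem chain_main (hnil : ∃ k : ℕ, ∀ w : List (Fin g), k ≤ w.length → (w.map B).prod = 0)
    (w : List (Fin g)) (hw : Fintype.card S ≤ w.length) : (w.map B).prod = 0 := by
  obtain ⟨k, hk⟩ := hnil
  have hbot : chU B k = ⊥ := by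
    rw [eq_bot_iff]
    intro u hu
    have h1 := word_zero B hk k u hu [] (by simp)
    simpa using h1
  have hdim : ∀ i, chU B i = ⊥ ∨ Module.finrank D (chU B i) + i ≤ Fintype.card S := by
    intro i
    induction i with
    | zero =>
      right
      have h1 : Module.finrank D (chU B 0) = Fintype.card S := by
        change Module.finrank D (⊤ : Submodule D (S → D)) = _
        rw [finrank_top, Module.finrank_fintype_fun_eq_card]
      omega
    | succ i ih =>
      rcases ih with ih | ih
      · left
        have := chU_succ_le B i
        rw [ih] at this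
        exact le_bot_iff.1 this
      · by_cases heq : chU B (i + 1) = chU B i
        · left
          have h1 : chU B (i + k) = chU B i := chU_const B heq k
          have h2 : chU B (i + k) ≤ chU B k := chU_anti B (by omega)
          rw [hbot, h1] at h2
          rw [heq]
          exact le_bot_iff.1 h2
        · right
          have hlt : chU B (i + 1) < chU B i := lt_of_le_of_ne (chU_succ_le B i) heq
          have h1 := Submodule.finrank_lt_finrank_of_lt hlt
          omega
  have hcard : chU B (Fintype.card S) = ⊥ := by
    rcases hdim (Fintype.card S) with h | h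
    · exact h
    · have h0 : Module.finrank D (chU B (Fintype.card S)) = 0 := by omega
      exact Submodule.finrank_eq_zero.1 h0
  have hzero : ∀ r : S → D, r ᵥ* (w.map B).prod = 0 := by
    intro r
    have h1 := word_mem B w 0 r (by change r ∈ (⊤ : Submodule D (S → D)); trivial)
    have h2 : chU B (0 + w.length) ≤ chU B (Fintype.card S) := chU_anti B (by omega)
    have h3 := h2 h1
    rw [hcard] at h3
    exact (Submodule.mem_bot D).1 h3
  ext i j
  have h1 := congrFun (hzero (Pi.single i 1)) j
  rw [Matrix.single_one_vecMul] at h1
  exact h1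

end

theorem t_CHAIN : CHAIN_stmt.{u} := by
  intro D _ _ h S _ _ g B hnil w hw
  letI : DivisionRing D := DivisionRing.ofIsUnitOrEqZero h
  exact chain_main B hnil w hw

end Pool.Agent.W551.GE
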